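import Mathlib

/-!
# A connected complex whose inverse connection matrix has a multiple top eigenvalue

The complex is a ring of three solid triangles joined by three edges (9 vertices, 12 edges,
3 triangles, 24 simplices).  It has a symmetry of order three.  Rational certificates show that the
largest eigenvalue `μ` of the inverse `g` of the connection matrix exceeds `41/10`, whereas every
eigenvector fixed by the symmetry has eigenvalue at most `41/10`; hence the eigenspace of `μ` is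
not one-dimensional.  All eigenvalues of `g` are at least `-4`, so `μ` is also the spectral radius.
-/

set_option autoImplicit false

open Matrix

namespace Pool.Agent.Results.MP_5fc97f_co.TopEigenvalueNotSimple

/-- `G` is a finite abstract simplicial complex: a finite family of nonempty finite sets that
contains every nonempty subset of each of its members. -/
def IsSimplicialComplex {V : Type*} (G : Finset (Finset V)) : Prop :=
  (∀ x ∈ G, x.Nonempty) ∧ ∀ x ∈ G, ∀ y ⊆ x, y.Nonempty → y ∈ G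

/-- The connection matrix of `G`: rows and columns are indexed by the simplices of `G`, the entry
is `1` if the two simplices intersect and `0` otherwise. -/
def connectionMatrix {V : Type*} [DecidableEq V] (G : Finset (Finset V)) : Matrix G G ℝ :=
  Matrix.of fun x y => if ((x : Finset V) ∩ (y : Finset V)).Nonempty then 1 else 0

/-- The graph on the simplices of `G` in which two distinct simplices are adjacent when they
intersect. -/
def connectionGraph {V : Type*} [DecidableEq V] (G : Finset (Finset V)) : SimpleGraph G where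
  Adj x y := x ≠ y ∧ ((x : Finset V) ∩ (y : Finset V)).Nonempty
  symm := ⟨fun x y h => ⟨h.1.symm, by rw [Finset.inter_comm]; exact h.2⟩⟩
  loopless := ⟨fun _ h => h.1 rfl⟩

/-- The Green function matrix `g = L⁻¹` of `G`. -/
noncomputable def greenMatrix {V : Type*} [DecidableEq V] (G : Finset (Finset V)) :
    Matrix G G ℝ :=
  (connectionMatrix G)⁻¹

/-- `ν` is an eigenvalue of the real square matrix `M`. -/
def IsEigenvalue {n : Type*} [Fintype n] [DecidableEq n] (M : Matrix n n ℝ) (ν : ℝ) : Prop :=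
  Module.End.HasEigenvalue (Matrix.toLin' M) ν

/-- The multiplicity of `ν` as an eigenvalue of `M`: the dimension of the eigenspace. -/
noncomputable def eigenvalueMultiplicity {n : Type*} [Fintype n] [DecidableEq n]
    (M : Matrix n n ℝ) (ν : ℝ) : ℕ :=
  Module.finrank ℝ (Module.End.eigenspace (Matrix.toLin' M) ν)

/-- The 24 simplices. -/
def S : Fin 24 → Finset ℕ :=
  ![{0}, {1}, {2}, {0, 1}, {1, 2}, {0, 2}, {0, 1, 2}, {1, 3}, {3}, {4}, {5}, {3, 4}, {4, 5}, {3, 5}, {3, 4, 5}, {4, 6}, {6}, {7}, {8}, {6, 7}, {7, 8}, {6, 8}, {6, 7, 8}, {0, 7}]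

/-- The connection matrix, as an integer matrix. -/
def L0 : Matrix (Fin 24) (Fin 24) ℤ :=
  !![1, 0, 0, 1, 0, 1, 1, 0, 0, 0, 0, 0, 0, 0, 0, 0, 0, 0, 0, 0, 0, 0, 0, 1;
    0, 1, 0, 1, 1, 0, 1, 1, 0, 0, 0, 0, 0, 0, 0, 0, 0, 0, 0, 0, 0, 0, 0, 0;
    0, 0, 1, 0, 1, 1, 1, 0, 0, 0, 0, 0, 0, 0, 0, 0, 0, 0, 0, 0, 0, 0, 0, 0;
    1, 1, 0, 1, 1, 1, 1, 1, 0, 0, 0, 0, 0, 0, 0, 0, 0, 0, 0, 0, 0, 0, 0, 1;
    0, 1, 1, 1, 1, 1, 1, 1, 0, 0, 0, 0, 0, 0, 0, 0, 0, 0, 0, 0, 0, 0, 0, 0;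
    1, 0, 1, 1, 1, 1, 1, 0, 0, 0, 0, 0, 0, 0, 0, 0, 0, 0, 0, 0, 0, 0, 0, 1;
    1, 1, 1, 1, 1, 1, 1, 1, 0, 0, 0, 0, 0, 0, 0, 0, 0, 0, 0, 0, 0, 0, 0, 1;
    0, 1, 0, 1, 1, 0, 1, 1, 1, 0, 0, 1, 0, 1, 1, 0, 0, 0, 0, 0, 0, 0, 0, 0;
    0, 0, 0, 0, 0, 0, 0, 1, 1, 0, 0, 1, 0, 1, 1, 0, 0, 0, 0, 0, 0, 0, 0, 0;
    0, 0, 0, 0, 0, 0, 0, 0, 0, 1, 0, 1, 1, 0, 1, 1, 0, 0, 0, 0, 0, 0, 0, 0;
    0, 0, 0, 0, 0, 0, 0, 0, 0, 0, 1, 0, 1, 1, 1, 0, 0, 0, 0, 0, 0, 0, 0, 0;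
    0, 0, 0, 0, 0, 0, 0, 1, 1, 1, 0, 1, 1, 1, 1, 1, 0, 0, 0, 0, 0, 0, 0, 0;
    0, 0, 0, 0, 0, 0, 0, 0, 0, 1, 1, 1, 1, 1, 1, 1, 0, 0, 0, 0, 0, 0, 0, 0;
    0, 0, 0, 0, 0, 0, 0, 1, 1, 0, 1, 1, 1, 1, 1, 0, 0, 0, 0, 0, 0, 0, 0, 0;
    0, 0, 0, 0, 0, 0, 0, 1, 1, 1, 1, 1, 1, 1, 1, 1, 0, 0, 0, 0, 0, 0, 0, 0;
    0, 0, 0, 0, 0, 0, 0, 0, 0, 1, 0, 1, 1, 0, 1, 1, 1, 0, 0, 1, 0, 1, 1, 0;
    0, 0, 0, 0, 0, 0, 0, 0, 0, 0, 0, 0, 0, 0, 0, 1, 1, 0, 0, 1, 0, 1, 1, 0;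
    0, 0, 0, 0, 0, 0, 0, 0, 0, 0, 0, 0, 0, 0, 0, 0, 0, 1, 0, 1, 1, 0, 1, 1;
    0, 0, 0, 0, 0, 0, 0, 0, 0, 0, 0, 0, 0, 0, 0, 0, 0, 0, 1, 0, 1, 1, 1, 0;
    0, 0, 0, 0, 0, 0, 0, 0, 0, 0, 0, 0, 0, 0, 0, 1, 1, 1, 0, 1, 1, 1, 1, 1;
    0, 0, 0, 0, 0, 0, 0, 0, 0, 0, 0, 0, 0, 0, 0, 0, 0, 1, 1, 1, 1, 1, 1, 1;
    0, 0, 0, 0, 0, 0, 0, 0, 0, 0, 0, 0, 0, 0, 0, 1, 1, 0, 1, 1, 1, 1, 1, 0;
    0, 0, 0, 0, 0, 0, 0, 0, 0, 0, 0, 0, 0, 0, 0, 1, 1, 1, 1, 1, 1, 1, 1, 1;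
    1, 0, 0, 1, 0, 1, 1, 0, 0, 0, 0, 0, 0, 0, 0, 0, 0, 1, 0, 1, 1, 0, 1, 1]

/-- Its inverse. -/
def g0 : Matrix (Fin 24) (Fin 24) ℤ :=
  !![-1, 0, 0, 0, -1, 0, 1, 0, 0, 0, 0, 0, 0, 0, 0, 0, 0, -1, 0, 0, 0, 0, 0, 1;
    0, -1, 0, 0, 0, -1, 1, 1, -1, 0, 0, 0, 0, 0, 0, 0, 0, 0, 0, 0, 0, 0, 0, 0;
    0, 0, 0, -1, 0, 0, 1, 0, 0, 0, 0, 0, 0, 0, 0, 0, 0, 0, 0, 0, 0, 0, 0, 0;
    0, 0, -1, 0, 1, 1, -1, 0, 0, 0, 0, 0, 0, 0, 0, 0, 0, 0, 0, 0, 0, 0, 0, 0;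
    -1, 0, 0, 1, 0, 1, -1, 0, 0, 0, 0, 0, 0, 0, 0, 0, 0, 0, 0, 0, 0, 0, 0, 0;
    0, -1, 0, 1, 1, 0, -1, 0, 0, 0, 0, 0, 0, 0, 0, 0, 0, 0, 0, 0, 0, 0, 0, 0;
    1, 1, 1, -1, -1, -1, 1, 0, 0, 0, 0, 0, 0, 0, 0, 0, 0, 0, 0, 0, 0, 0, 0, 0;
    0, 1, 0, 0, 0, 0, 0, -1, 1, 0, 0, 0, 0, 0, 0, 0, 0, 0, 0, 0, 0, 0, 0, 0;
    0, -1, 0, 0, 0, 0, 0, 1, -1, 0, 0, 0, -1, 0, 1, 0, 0, 0, 0, 0, 0, 0, 0, 0;
    0, 0, 0, 0, 0, 0, 0, 0, 0, -1, 0, 0, 0, -1, 1, 1, -1, 0, 0, 0, 0, 0, 0, 0;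
    0, 0, 0, 0, 0, 0, 0, 0, 0, 0, 0, -1, 0, 0, 1, 0, 0, 0, 0, 0, 0, 0, 0, 0;
    0, 0, 0, 0, 0, 0, 0, 0, 0, 0, -1, 0, 1, 1, -1, 0, 0, 0, 0, 0, 0, 0, 0, 0;
    0, 0, 0, 0, 0, 0, 0, 0, -1, 0, 0, 1, 0, 1, -1, 0, 0, 0, 0, 0, 0, 0, 0, 0;
    0, 0, 0, 0, 0, 0, 0, 0, 0, -1, 0, 1, 1, 0, -1, 0, 0, 0, 0, 0, 0, 0, 0, 0;
    0, 0, 0, 0, 0, 0, 0, 0, 1, 1, 1, -1, -1, -1, 1, 0, 0, 0, 0, 0, 0, 0, 0, 0;
    0, 0, 0, 0, 0, 0, 0, 0, 0, 1, 0, 0, 0, 0, 0, -1, 1, 0, 0, 0, 0, 0, 0, 0;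
    0, 0, 0, 0, 0, 0, 0, 0, 0, -1, 0, 0, 0, 0, 0, 1, -1, 0, 0, 0, -1, 0, 1, 0;
    -1, 0, 0, 0, 0, 0, 0, 0, 0, 0, 0, 0, 0, 0, 0, 0, 0, -1, 0, 0, 0, -1, 1, 1;
    0, 0, 0, 0, 0, 0, 0, 0, 0, 0, 0, 0, 0, 0, 0, 0, 0, 0, 0, -1, 0, 0, 1, 0;
    0, 0, 0, 0, 0, 0, 0, 0, 0, 0, 0, 0, 0, 0, 0, 0, 0, 0, -1, 0, 1, 1, -1, 0;
    0, 0, 0, 0, 0, 0, 0, 0, 0, 0, 0, 0, 0, 0, 0, 0, -1, 0, 0, 1, 0, 1, -1, 0;
    0, 0, 0, 0, 0, 0, 0, 0, 0, 0, 0, 0, 0, 0, 0, 0, 0, -1, 0, 1, 1, 0, -1, 0;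
    0, 0, 0, 0, 0, 0, 0, 0, 0, 0, 0, 0, 0, 0, 0, 0, 1, 1, 1, -1, -1, -1, 1, 0;
    1, 0, 0, 0, 0, 0, 0, 0, 0, 0, 0, 0, 0, 0, 0, 0, 0, 1, 0, 0, 0, 0, 0, -1]

/-- Certificate for `g + 4 ≥ 0`. -/
def R0 : Matrix (Fin 24) (Fin 24) ℚ :=
  !![1, 0, 0, 0, -1/3, 0, 1/3, 0, 0, 0, 0, 0, 0, 0, 0, 0, 0, -1/3, 0, 0, 0, 0, 0, 1/3;
    0, 1, 0, 0, 0, -1/3, 1/3, 1/3, -1/3, 0, 0, 0, 0, 0, 0, 0, 0, 0, 0, 0, 0, 0, 0, 0;
    0, 0, 1, -1/4, 0, 0, 1/4, 0, 0, 0, 0, 0, 0, 0, 0, 0, 0, 0, 0, 0, 0, 0, 0, 0;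
    0, 0, 0, 1, 4/15, 4/15, -1/5, 0, 0, 0, 0, 0, 0, 0, 0, 0, 0, 0, 0, 0, 0, 0, 0, 0;
    0, 0, 0, 0, 1, 11/51, -7/51, 0, 0, 0, 0, 0, 0, 0, 0, 0, 0, -5/51, 0, 0, 0, 0, 0, 5/51;
    0, 0, 0, 0, 0, 1, -7/62, 51/496, -51/496, 0, 0, 0, 0, 0, 0, 0, 0, 11/496, 0, 0, 0, 0, 0, -11/496;
    0, 0, 0, 0, 0, 0, 1, -55/712, 55/712, 0, 0, 0, 0, 0, 0, 0, 0, 55/712, 0, 0, 0, 0, 0, -55/712;
    0, 0, 0, 0, 0, 0, 0, 1, 495/929, 0, 0, 0, 0, 0, 0, 0, 0, 11/1858, 0, 0, 0, 0, 0, -11/1858;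
    0, 0, 0, 0, 0, 0, 0, 0, 1, 0, 0, 0, -929/1736, 0, 929/1736, 0, 0, -11/868, 0, 0, 0, 0, 0, 11/868;
    0, 0, 0, 0, 0, 0, 0, 0, 0, 1, 0, 0, 0, -1/3, 1/3, 1/3, -1/3, 0, 0, 0, 0, 0, 0, 0;
    0, 0, 0, 0, 0, 0, 0, 0, 0, 0, 1, -1/4, 0, 0, 1/4, 0, 0, 0, 0, 0, 0, 0, 0, 0;
    0, 0, 0, 0, 0, 0, 0, 0, 0, 0, 0, 1, 4/15, 4/15, -1/5, 0, 0, 0, 0, 0, 0, 0, 0, 0;
    0, 0, 0, 0, 0, 0, 0, 0, 0, 0, 0, 0, 1, 1736/7571, -627/7571, 0, 0, -30/7571, 0, 0, 0, 0, 0, 30/7571;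
    0, 0, 0, 0, 0, 0, 0, 0, 0, 0, 0, 0, 0, 1, -1844/14681, 7571/73405, -7571/73405, 66/73405, 0, 0, 0, 0, 0, -66/73405;
    0, 0, 0, 0, 0, 0, 0, 0, 0, 0, 0, 0, 0, 0, 1, -4279/53712, 4279/53712, 11/3357, 0, 0, 0, 0, 0, -11/3357;
    0, 0, 0, 0, 0, 0, 0, 0, 0, 0, 0, 0, 0, 0, 0, 1, 373549/700691, 176/700691, 0, 0, 0, 0, 0, -176/700691;
    0, 0, 0, 0, 0, 0, 0, 0, 0, 0, 0, 0, 0, 0, 0, 0, 1, -88/163571, 0, 0, -700691/1308568, 0, 700691/1308568, 88/163571;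
    0, 0, 0, 0, 0, 0, 0, 0, 0, 0, 0, 0, 0, 0, 0, 0, 0, 1, 0, 0, -1408/6828281, -2617136/6828281, 2618544/6828281, 3640263/6828281;
    0, 0, 0, 0, 0, 0, 0, 0, 0, 0, 0, 0, 0, 0, 0, 0, 0, 0, 1, -1/4, 0, 0, 1/4, 0;
    0, 0, 0, 0, 0, 0, 0, 0, 0, 0, 0, 0, 0, 0, 0, 0, 0, 0, 0, 1, 4/15, 4/15, -1/5, 0;
    0, 0, 0, 0, 0, 0, 0, 0, 0, 0, 0, 0, 0, 0, 0, 0, 0, 0, 0, 0, 1, 54610888/238210363, -19690011/238210363, 61440/238210363;
    0, 0, 0, 0, 0, 0, 0, 0, 0, 0, 0, 0, 0, 0, 0, 0, 0, 0, 0, 0, 0, 1, -1541507/13781472, 11540783/68907360;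
    0, 0, 0, 0, 0, 0, 0, 0, 0, 0, 0, 0, 0, 0, 0, 0, 0, 0, 0, 0, 0, 0, 1, -8305/63377;
    0, 0, 0, 0, 0, 0, 0, 0, 0, 0, 0, 0, 0, 0, 0, 0, 0, 0, 0, 0, 0, 0, 0, 1]

/-- Certificate for `g + 4 ≥ 0`. -/
def D0 : Fin 24 → ℚ :=
  ![3, 3, 4, 15/4, 17/5, 496/153, 356/93, 929/356, 1736/929, 3, 4, 15/4, 83281/26040, 73405/22713, 53712/14681, 700691/268560, 1308568/700691, 6828281/2617136, 4, 15/4, 2620313993/819393720, 757980960/238210363, 49877699/13781472, 543817/316885]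

/-- The quotient of `g` on vectors fixed by the symmetry. -/
def g8 : Matrix (Fin 8) (Fin 8) ℤ :=
  !![-1, -1, 0, 0, -1, 0, 1, 1;
    -1, -1, 0, 0, 0, -1, 1, 1;
    0, 0, 0, -1, 0, 0, 1, 0;
    0, 0, -1, 0, 1, 1, -1, 0;
    -1, 0, 0, 1, 0, 1, -1, 0;
    0, -1, 0, 1, 1, 0, -1, 0;
    1, 1, 1, -1, -1, -1, 1, 0;
    1, 1, 0, 0, 0, 0, 0, -1]

/-- Certificate for `41/10 - g8 ≥ 0`. -/
def R8 : Matrix (Fin 8) (Fin 8) ℚ :=
  !![1, 10/51, 0, 0, 10/51, 0, -10/51, -10/51;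
    0, 1, 0, 0, -100/2501, 510/2501, -10/61, -10/61;
    0, 0, 1, 10/41, 0, 0, -10/41, 0;
    0, 0, 0, 1, -410/1581, -410/1581, 10/31, 0;
    0, 0, 0, 0, 1, -48213910/143800121, 58778010/143800121, 6482100/143800121;
    0, 0, 0, 0, 0, 1, 1433610/2331371, 158100/2331371;
    0, 0, 0, 0, 0, 0, 1, -12344200/6965901;
    0, 0, 0, 0, 0, 0, 0, 1]

/-- Certificate for `41/10 - g8 ≥ 0`. -/
def D8 : Fin 8 → ℚ :=
  ![51/10, 2501/510, 41/10, 1581/410, 143800121/39540810, 4641759661/1438001210, 6965901/23313710, 265512751/69659010]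

/-- A test vector with Rayleigh quotient above `41/10`. -/
def w0 : Fin 24 → ℤ :=
  ![-1, 0, -1, 1, 1, 1, -2, -1, -3, -4, -4, 6, 6, 6, -9, 0, 4, 4, 4, -7, -7, -7, 11, 0]


theorem L0_mul_g0 : L0 * g0 = 1 := by decide +kernel
theorem L0_eq : ∀ i j, L0 i j = if (S i ∩ S j).Nonempty then 1 else 0 := by decide +kernel
theorem S_inj : Function.Injective S := by decide +kernel
theorem g0_symm : ∀ i j, g0 i j = g0 j i := by decide +kernel
theorem g0_shift : ∀ i j, g0 (i + 8) (j + 8) = g0 i j := by decide +kernel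
theorem D0_nonneg : ∀ i, 0 ≤ D0 i := by decide +kernel
theorem D8_nonneg : ∀ i, 0 ≤ D8 i := by decide +kernel
theorem cert0 : g0.map (Int.cast : ℤ → ℚ) + (4 : ℚ) • (1 : Matrix (Fin 24) (Fin 24) ℚ)
    = R0.transpose * Matrix.diagonal D0 * R0 := by decide +kernel
theorem cert8 : (41 / 10 : ℚ) • (1 : Matrix (Fin 8) (Fin 8) ℚ) - g8.map (Int.cast : ℤ → ℚ)
    = R8.transpose * Matrix.diagonal D8 * R8 := by decide +kernel
theorem g8_eq : ∀ a b : Fin 8, g8 a b = g0 (a.castLE (by decide)) (b.castLE (by decide))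
    + g0 (a.castLE (by decide)) (b.castLE (by decide) + 8)
    + g0 (a.castLE (by decide)) (b.castLE (by decide) + 16) := by decide +kernel
theorem witness : 41 * (w0 ⬝ᵥ w0) < 10 * (w0 ⬝ᵥ (g0 *ᵥ w0)) := by decide +kernel

/-- The inverse connection matrix as a real matrix indexed by `Fin 24`. -/
noncomputable def A : Matrix (Fin 24) (Fin 24) ℝ := g0.map (Int.cast : ℤ → ℝ)

theorem A_herm : A.IsHermitian := by
  ext i j
  simp [A, g0_symm i j]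

theorem cast_cert {n : ℕ} (M R : Matrix (Fin n) (Fin n) ℚ) (D : Fin n → ℚ)
    (h : M = R.transpose * Matrix.diagonal D * R) (hD : ∀ i, 0 ≤ D i) :
    (M.map (Rat.castHom ℝ)).PosSemidef := by
  have h1 : M.map (Rat.castHom ℝ) = (R.map (Rat.castHom ℝ))ᴴ
      * Matrix.diagonal (fun i => (D i : ℝ)) * R.map (Rat.castHom ℝ) := by
    rw [h, Matrix.map_mul, Matrix.map_mul]
    congr 1
    congr 1
    ext i j
    by_cases hij : i = j
    · subst hij; simp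
    · simp [hij]
  rw [h1]
  refine (PosSemidef.diagonal ?_).conjTranspose_mul_mul_same _
  intro i
  simpa using hD i

theorem A_posSemidef : (A + (4 : ℝ) • (1 : Matrix (Fin 24) (Fin 24) ℝ)).PosSemidef := by
  have h := cast_cert _ R0 D0 cert0 D0_nonneg
  convert h using 1
  ext i j
  by_cases hij : i = j
  · subst hij; simp [A]
  · simp [A, hij]

theorem g8_posSemidef : ((41 / 10 : ℝ) • (1 : Matrix (Fin 8) (Fin 8) ℝ)
    - g8.map (Int.cast : ℤ → ℝ)).PosSemidef := by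
  have h := cast_cert _ R8 D8 cert8 D8_nonneg
  convert h using 1
  ext i j
  by_cases hij : i = j
  · subst hij; simp
  · simp [hij]

/-- Eigenvalues of `A` are at least `-4`. -/
theorem neg_four_le {ν : ℝ} {v : Fin 24 → ℝ} (hv : v ≠ 0) (h : A *ᵥ v = ν • v) : -4 ≤ ν := by
  have h1 := A_posSemidef.dotProduct_mulVec_nonneg v
  have h2 : 0 < v ⬝ᵥ v := by
    have := Matrix.dotProduct_star_self_pos_iff.mpr hv
    simpa using this
  have h3 : star v ⬝ᵥ ((A + (4 : ℝ) • (1 : Matrix (Fin 24) (Fin 24) ℝ)) *ᵥ v)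
      = (ν + 4) * (v ⬝ᵥ v) := by
    rw [Matrix.add_mulVec, h, Matrix.smul_mulVec, Matrix.one_mulVec]
    simp
    ring
  rw [h3] at h1
  by_contra hlt
  push Not at hlt
  have : (ν + 4) * (v ⬝ᵥ v) < 0 := mul_neg_of_neg_of_pos (by linarith) h2
  linarith

/-- An eigenvector of `A` fixed by the symmetry has eigenvalue at most `41/10`. -/
theorem le_of_fixed {ν : ℝ} {v : Fin 24 → ℝ} (hv : v ≠ 0) (h : A *ᵥ v = ν • v)
    (hfix : ∀ i, v (i + 8) = v i) : ν ≤ 41 / 10 := by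
  set u : Fin 8 → ℝ := fun a => v (a.castLE (by decide)) with hu
  have hsum : ∀ F : Fin 24 → ℝ, ∑ j, F j = ∑ b : Fin 8, (F (b.castLE (by decide))
      + F (b.castLE (by decide) + 8) + F (b.castLE (by decide) + 16)) := by
    intro F
    simp only [Fin.sum_univ_succ, Fin.sum_univ_zero, Fin.reduceSucc, Fin.reduceCastLE,
      Fin.reduceAdd, Fin.isValue, Fin.castLE_zero, zero_add, Fin.succ_zero_eq_one]
    norm_num [Fin.succ]
    ring!
  have hfix2 : ∀ i, v (i + 16) = v i := by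
    intro i
    have : i + 16 = (i + 8) + 8 := by
      rw [add_assoc]; rfl
    rw [this, hfix, hfix]
  have h8 : (g8.map (Int.cast : ℤ → ℝ)) *ᵥ u = ν • u := by
    ext a
    have := congrFun h (a.castLE (by decide))
    simp only [Matrix.mulVec, dotProduct, Pi.smul_apply, smul_eq_mul] at this ⊢
    rw [hsum] at this
    rw [hu, ← this]
    refine Finset.sum_congr rfl fun b _ => ?_
    rw [hfix, hfix2]
    simp only [Matrix.map_apply, A, g8_eq a b]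
    push_cast
    ring
  have hu0 : u ≠ 0 := by
    intro h0
    apply hv
    ext i
    have hi : ∃ a : Fin 8, i = a.castLE (by decide) ∨ i = a.castLE (by decide) + 8
        ∨ i = a.castLE (by decide) + 16 := by
      revert i
      decide
    obtain ⟨a, ha⟩ := hi
    have := congrFun h0 a
    simp only [hu, Pi.zero_apply] at this
    rcases ha with ha | ha | ha
    · rw [ha, this]; rfl
    · rw [ha, hfix, this]; rfl
    · rw [ha, hfix2, this]; rfl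
  have h1 := g8_posSemidef.dotProduct_mulVec_nonneg u
  have h2 : 0 < u ⬝ᵥ u := by
    have := Matrix.dotProduct_star_self_pos_iff.mpr hu0
    simpa using this
  have h3 : star u ⬝ᵥ (((41 / 10 : ℝ) • (1 : Matrix (Fin 8) (Fin 8) ℝ)
      - g8.map (Int.cast : ℤ → ℝ)) *ᵥ u) = (41 / 10 - ν) * (u ⬝ᵥ u) := by
    rw [Matrix.sub_mulVec, h8, Matrix.smul_mulVec, Matrix.one_mulVec]
    simp
    ring
  rw [h3] at h1
  by_contra hlt
  push Not at hlt
  have : (41 / 10 - ν) * (u ⬝ᵥ u) < 0 := mul_neg_of_neg_of_pos (by linarith) h2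
  linarith

/-- The symmetry maps eigenvectors to eigenvectors. -/
theorem shift_eigen {ν : ℝ} {v : Fin 24 → ℝ} (h : A *ᵥ v = ν • v) :
    A *ᵥ (fun i => v (i + 8)) = ν • (fun i => v (i + 8)) := by
  ext i
  have := congrFun h (i + 8)
  simp only [Matrix.mulVec, dotProduct, Pi.smul_apply, smul_eq_mul] at this ⊢
  rw [← this, ← Equiv.sum_comp (Equiv.addRight (8 : Fin 24)) (fun j => A (i + 8) j * v j)]
  refine Finset.sum_congr rfl fun j _ => ?_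
  simp only [Equiv.coe_addRight, A, Matrix.map_apply, g0_shift]

/-- There is a largest eigenvalue `μ` of `A`, it exceeds `41/10`. -/
theorem exists_top : ∃ μ : ℝ, 41 / 10 < μ ∧ (∃ v : Fin 24 → ℝ, v ≠ 0 ∧ A *ᵥ v = μ • v) ∧
    ∀ (ν : ℝ) (v : Fin 24 → ℝ), v ≠ 0 → A *ᵥ v = ν • v → ν ≤ μ := by
  obtain ⟨i0, hi0⟩ := Finite.exists_max A_herm.eigenvalues
  have hmax : ∀ (ν : ℝ) (v : Fin 24 → ℝ), v ≠ 0 → A *ᵥ v = ν • v →
      ν ≤ A_herm.eigenvalues i0 := by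
    intro ν v hv h
    have hs : ν ∈ spectrum ℝ A := by
      rw [← Matrix.spectrum_toLin']
      exact (Module.End.hasEigenvalue_of_hasEigenvector
        (x := v) ⟨by rw [Module.End.mem_eigenspace_iff, Matrix.toLin'_apply]; exact h, hv⟩).mem_spectrum
    rw [A_herm.spectrum_real_eq_range_eigenvalues] at hs
    obtain ⟨j, rfl⟩ := hs
    exact hi0 j
  refine ⟨A_herm.eigenvalues i0, ?_, ⟨⇑(A_herm.eigenvectorBasis i0), ?_,
    A_herm.mulVec_eigenvectorBasis i0⟩, hmax⟩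
  · by_contra hle
    push Not at hle
    set B : Matrix (Fin 24) (Fin 24) ℝ := (41 / 10 : ℝ) • (1 : Matrix (Fin 24) (Fin 24) ℝ) - A
      with hB
    have hBh : B.IsHermitian := by
      refine IsHermitian.sub ?_ A_herm
      ext i j
      simp [Matrix.one_apply, eq_comm]
    have hps : B.PosSemidef := by
      rw [hBh.posSemidef_iff_eigenvalues_nonneg]
      intro j
      have h1 := hBh.mulVec_eigenvectorBasis j
      have h2 : (⇑(hBh.eigenvectorBasis j) : Fin 24 → ℝ) ≠ 0 :=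
        (WithLp.ofLp_eq_zero 2).ne.2 <| hBh.eigenvectorBasis.orthonormal.ne_zero j
      have h3 : A *ᵥ ⇑(hBh.eigenvectorBasis j)
          = (41 / 10 - hBh.eigenvalues j) • ⇑(hBh.eigenvectorBasis j) := by
        have h1' : B *ᵥ ⇑(hBh.eigenvectorBasis j)
            = (41 / 10 : ℝ) • ⇑(hBh.eigenvectorBasis j) - A *ᵥ ⇑(hBh.eigenvectorBasis j) := by
          generalize (⇑(hBh.eigenvectorBasis j) : Fin 24 → ℝ) = x
          rw [hB, Matrix.sub_mulVec, Matrix.smul_mulVec, Matrix.one_mulVec]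
        rw [h1] at h1'
        rw [sub_smul, h1']
        abel
      have h4 := hmax _ _ h2 h3
      simp only [Pi.zero_apply]
      linarith
    have h5 := hps.dotProduct_mulVec_nonneg (fun i => (w0 i : ℝ))
    have h6 : ((w0 ⬝ᵥ w0 : ℤ) : ℝ) = (fun i => (w0 i : ℝ)) ⬝ᵥ (fun i => (w0 i : ℝ)) := by
      simp [dotProduct]
    have h7 : ((w0 ⬝ᵥ (g0 *ᵥ w0) : ℤ) : ℝ)
        = (fun i => (w0 i : ℝ)) ⬝ᵥ (A *ᵥ (fun i => (w0 i : ℝ))) := by
      simp [dotProduct, Matrix.mulVec, A]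
    have h8 : star (fun i => (w0 i : ℝ)) ⬝ᵥ (B *ᵥ (fun i => (w0 i : ℝ)))
        = 41 / 10 * ((w0 ⬝ᵥ w0 : ℤ) : ℝ) - ((w0 ⬝ᵥ (g0 *ᵥ w0) : ℤ) : ℝ) := by
      rw [h6, h7, hB, Matrix.sub_mulVec, Matrix.smul_mulVec, Matrix.one_mulVec, dotProduct_sub,
        dotProduct_smul]
      simp
    rw [h8] at h5
    have h9 : (41 * ((w0 ⬝ᵥ w0 : ℤ) : ℝ)) < 10 * ((w0 ⬝ᵥ (g0 *ᵥ w0) : ℤ) : ℝ) := by
      exact_mod_cast witness
    linarith
  · exact (WithLp.ofLp_eq_zero 2).ne.2 <| A_herm.eigenvectorBasis.orthonormal.ne_zero i0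

/-- The counterexample. -/
def G : Finset (Finset ℕ) := Finset.univ.image S

/-- Numbering of the simplices. -/
noncomputable def e : Fin 24 ≃ G :=
  Equiv.ofBijective (fun i => ⟨S i, Finset.mem_image_of_mem _ (Finset.mem_univ i)⟩)
    ⟨fun i j h => S_inj (congrArg Subtype.val h), fun x => by
      obtain ⟨i, _, hi⟩ := Finset.mem_image.mp x.2
      exact ⟨i, Subtype.ext hi⟩⟩

theorem e_apply (i : Fin 24) : ((e i : G) : Finset ℕ) = S i := rfl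

theorem G_complex : IsSimplicialComplex G := by
  constructor
  · decide +kernel
  · intro x hx y hy hne
    have key : ∀ x ∈ G, ∀ y ∈ x.powerset, y.Nonempty → y ∈ G := by decide +kernel
    exact key x hx y (Finset.mem_powerset.mpr hy) hne

theorem connectionMatrix_eq :
    connectionMatrix G = (L0.map (Int.cast : ℤ → ℝ)).submatrix e.symm e.symm := by
  ext x y
  obtain ⟨i, rfl⟩ := e.surjective x
  obtain ⟨j, rfl⟩ := e.surjective y
  simp only [connectionMatrix, Matrix.of_apply, Matrix.submatrix_apply, Equiv.symm_apply_apply,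
    Matrix.map_apply, e_apply, L0_eq i j]
  split_ifs <;> simp

theorem mul_eq_one : connectionMatrix G * A.submatrix e.symm e.symm = 1 := by
  rw [connectionMatrix_eq, Matrix.submatrix_mul_equiv]
  have : L0.map (Int.cast : ℤ → ℝ) * A = 1 := by
    have h1 : (L0 * g0).map (Int.castRingHom ℝ) = 1 := by
      rw [L0_mul_g0]
      ext i j
      by_cases hij : i = j
      · subst hij; simp
      · simp [hij]
    rw [Matrix.map_mul] at h1
    exact h1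
  rw [this]
  exact Matrix.submatrix_one_equiv _

theorem inv_eq : (connectionMatrix G)⁻¹ = A.submatrix e.symm e.symm :=
  Matrix.inv_eq_right_inv mul_eq_one

theorem mulVec_comp (v : Fin 24 → ℝ) :
    (connectionMatrix G)⁻¹ *ᵥ (v ∘ e.symm) = (A *ᵥ v) ∘ e.symm := by
  rw [inv_eq]
  ext x
  simp only [Matrix.mulVec, dotProduct, Matrix.submatrix_apply, Function.comp_apply]
  exact Equiv.sum_comp e.symm (fun j => A (e.symm x) j * v j)

theorem G_connected : (connectionGraph G).Connected := by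
  have hadj : ∀ i j : Fin 24, i ≠ j → L0 i j = 1 → (connectionGraph G).Adj (e i) (e j) := by
    intro i j hij h
    refine ⟨fun h' => hij (e.injective h'), ?_⟩
    rw [e_apply, e_apply]
    by_contra hne
    rw [L0_eq, if_neg hne] at h
    exact absurd h (by decide)
  have hreach : ∀ i : Fin 24, (connectionGraph G).Reachable (e 0) (e i) := by
    -- every simplex is reached from `e 0` in at most five steps
    have step : ∀ i j : Fin 24, L0 i j = 1 → (connectionGraph G).Reachable (e i) (e j) := by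
      intro i j h
      by_cases hij : i = j
      · subst hij; exact SimpleGraph.Reachable.refl _
      · exact (hadj i j hij h).reachable
    have key : ∀ i : Fin 24, ∃ a b c d : Fin 24, L0 0 a = 1 ∧ L0 a b = 1 ∧ L0 b c = 1 ∧
        L0 c d = 1 ∧ L0 d i = 1 := by decide +kernel
    intro i
    obtain ⟨a, b, c, d, h1, h2, h3, h4, h5⟩ := key i
    exact (step _ _ h1).trans ((step _ _ h2).trans ((step _ _ h3).trans ((step _ _ h4).trans
      (step _ _ h5))))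
  refine (SimpleGraph.connected_iff_exists_forall_reachable _).mpr ⟨e 0, fun y => ?_⟩
  obtain ⟨i, rfl⟩ := e.surjective y
  exact hreach i

/-- **Negative answer.** There is a connected finite abstract simplicial complex `G` such that the
largest eigenvalue `μ` of the inverse `g` of the connection matrix of `G` has multiplicity at least
two; moreover `μ` is also the largest eigenvalue of `g` in absolute value. -/
theorem result : ∃ G : Finset (Finset ℕ), IsSimplicialComplex G ∧ (connectionGraph G).Connected ∧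
    IsUnit (connectionMatrix G) ∧
    ∃ μ : ℝ, (∀ ν : ℝ, IsEigenvalue (greenMatrix G) ν → |ν| ≤ μ) ∧
      2 ≤ eigenvalueMultiplicity (greenMatrix G) μ := by
  refine ⟨G, G_complex, G_connected, ?_, ?_⟩
  · exact (IsUnit.of_mul_eq_one _ mul_eq_one)
  obtain ⟨μ, hμ, ⟨v, hv0, hv⟩, hmax⟩ := exists_top
  refine ⟨μ, ?_, ?_⟩
  · intro ν hν
    unfold IsEigenvalue greenMatrix at hν
    obtain ⟨x, hx, hx0⟩ := hν.exists_hasEigenvector
    rw [Module.End.mem_eigenspace_iff, Matrix.toLin'_apply] at hx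
    have hy0 : x ∘ e ≠ 0 := by
      intro h
      apply hx0
      ext y
      obtain ⟨i, rfl⟩ := e.surjective y
      exact congrFun h i
    have hy : A *ᵥ (x ∘ e) = ν • (x ∘ e) := by
      have h1 := mulVec_comp (x ∘ e)
      have h2 : (x ∘ e) ∘ e.symm = x := by
        ext y; simp
      rw [h2, hx] at h1
      ext i
      have h3 := congrFun h1 (e i)
      simpa using h3.symm
    rw [abs_le]
    exact ⟨by linarith [neg_four_le hy0 hy], hmax ν _ hy0 hy⟩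
  · unfold eigenvalueMultiplicity greenMatrix
    set v' : Fin 24 → ℝ := fun i => v (i + 8) with hv'
    have hmem : ∀ u : Fin 24 → ℝ, A *ᵥ u = μ • u → u ∘ e.symm ∈
        Module.End.eigenspace (Matrix.toLin' (connectionMatrix G)⁻¹) μ := by
      intro u hu
      rw [Module.End.mem_eigenspace_iff, Matrix.toLin'_apply, mulVec_comp, hu]
      rfl
    have hli : ∀ s t : ℝ, s • v + t • v' = 0 → s = 0 ∧ t = 0 := by
      intro s t hst
      by_cases ht : t = 0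
      · subst ht
        rw [zero_smul, add_zero] at hst
        rcases smul_eq_zero.mp hst with h | h
        · exact ⟨h, rfl⟩
        · exact absurd h hv0
      · exfalso
        -- `v (i + 8) = c * v i` with `c ^ 3 = 1`, hence `c = 1` and `v` is fixed
        set c : ℝ := -(s / t) with hc
        have h1 : ∀ i, v (i + 8) = c * v i := by
          intro i
          have := congrFun hst i
          simp only [Pi.add_apply, Pi.smul_apply, smul_eq_mul, Pi.zero_apply, hv'] at this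
          rw [hc]
          field_simp
          linarith
        have h2 : ∀ i, v i = c ^ 3 * v i := by
          intro i
          have : i + 8 + 8 + 8 = i := by
            rw [add_assoc, add_assoc]
            have : (8 + (8 + 8) : Fin 24) = 0 := by decide
            rw [this, add_zero]
          calc v i = v (i + 8 + 8 + 8) := by rw [this]
            _ = c ^ 3 * v i := by rw [h1, h1, h1]; ring
        obtain ⟨i, hi⟩ := Function.ne_iff.mp hv0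
        have h3 : c ^ 3 = 1 := by
          have := h2 i
          have hi' : v i ≠ 0 := hi
          have h4 : (c ^ 3 - 1) * v i = 0 := by linarith
          rcases mul_eq_zero.mp h4 with h | h
          · linarith
          · exact absurd h hi'
        have h4 : c = 1 := by
          have h5 : (c - 1) * (c ^ 2 + c + 1) = 0 := by ring_nf; linarith
          rcases mul_eq_zero.mp h5 with h | h
          · linarith
          · nlinarith [sq_nonneg (c + 1 / 2)]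
        have h5 := le_of_fixed hv0 hv (fun i => by rw [h1 i, h4, one_mul])
        linarith
    let E := Module.End.eigenspace (Matrix.toLin' (connectionMatrix G)⁻¹) μ
    let f : Fin 2 → E := ![⟨v ∘ e.symm, hmem v hv⟩, ⟨v' ∘ e.symm, hmem v' (shift_eigen hv)⟩]
    have hf : LinearIndependent ℝ f := by
      rw [LinearIndependent.pair_iff]
      intro s t hst
      apply hli s t
      have h1 := congrArg Subtype.val hst
      ext i
      have h2 := congrFun h1 (e i)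
      simpa using h2
    have := hf.fintype_card_le_finrank
    simpa using this

end Pool.Agent.Results.MP_5fc97f_co.TopEigenvalueNotSimple
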